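import Pool.Agent.Q279.PM.Stm

/-!
# Project PM: assembly from the lemma jobs
-/

namespace Pool.Agent.Q279.PM

open Set MeasureTheory intervalIntegral

noncomputable section

/-- `u` is a positive classical solution on `[a,b]` of
`d (u/P)'' + (K/P)^lam u (1 - u/K) = 0` with `(u/P)'(a) = (u/P)'(b) = 0`; derivatives at the
two ends are one-sided. -/
def IsSolution (a b : ℝ) (K P : ℝ → ℝ) (lam d : ℝ) (u : ℝ → ℝ) : Prop :=
  (∀ x ∈ Icc a b, 0 < u x) ∧
  ∃ w' : ℝ → ℝ,
    (∀ x ∈ Icc a b, HasDerivWithinAt (fun y => u y / P y) (w' x) (Icc a b) x) ∧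
    (∀ x ∈ Icc a b, ∃ w'' : ℝ, HasDerivWithinAt w' w'' (Icc a b) x ∧
      d * w'' + (K x / P x) ^ lam * u x * (1 - u x / K x) = 0) ∧
    w' a = 0 ∧ w' b = 0

/-- The maximal total population: the supremum of the integral of the positive solution over
all dispersal rates `d > 0`. -/
def maxPop (a b : ℝ) (K P : ℝ → ℝ) (lam : ℝ) : EReal :=
  ⨆ (d : ℝ) (_ : 0 < d) (u : ℝ → ℝ) (_ : IsSolution a b K P lam d u),
    ((∫ x in a..b, u x : ℝ) : EReal)

/-- Translation between the two forms of the equation. -/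
theorem alg {k q w lam : ℝ} (hk : 0 < k) (hq : 0 < q) :
    (k / (k / q)) ^ lam * (k / q * w) * (1 - k / q * w / k) = k * q ^ (lam - 2) * w * (q - w) := by
  have h1 : k / (k / q) = q := by field_simp
  have h2 : q ^ (lam - 2) = q ^ lam / q ^ 2 := by
    rw [Real.rpow_sub hq]
    norm_num
  rw [h1, h2]
  field_simp

theorem isSolution_of_sol {s t : ℝ} {K q : ℝ → ℝ} {lam d : ℝ} {w w1 : ℝ → ℝ}
    (hK : ∀ x, 0 < K x) (hq : ∀ x, 0 < q x) (hd : 0 < d) (h : Sol s t K q lam d w w1) :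
    IsSolution s t K (fun x => K x / q x) lam d (fun x => K x / q x * w x) := by
  refine ⟨fun x hx => mul_pos (div_pos (hK x) (hq x)) (h.pos x hx), w1, ?_, ?_, h.left, h.right⟩
  · intro x hx
    have : (fun y => K y / q y * w y / (K y / q y)) = w := by
      funext y
      exact mul_div_cancel_left₀ _ (div_pos (hK y) (hq y)).ne'
    rw [this]
    exact h.dw x hx
  · intro x hx
    refine ⟨_, h.dw1 x hx, ?_⟩
    rw [alg (hK x) (hq x)]
    field_simp
    ring

theorem sol_of_isSolution {s t : ℝ} {K q : ℝ → ℝ} {lam d : ℝ} {u : ℝ → ℝ}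
    (hK : ∀ x, 0 < K x) (hq : ∀ x, 0 < q x) (hd : 0 < d)
    (h : IsSolution s t K (fun x => K x / q x) lam d u) :
    ∃ w1, Sol s t K q lam d (fun x => u x / (K x / q x)) w1 := by
  obtain ⟨hpos, w1, h1, h2, h3, h4⟩ := h
  refine ⟨w1, ⟨fun x hx => div_pos (hpos x hx) (div_pos (hK x) (hq x)), h1, ?_, h3, h4⟩⟩
  intro x hx
  obtain ⟨w'', hw, he⟩ := h2 x hx
  have hu : u x = K x / q x * (u x / (K x / q x)) := by
    exact (mul_div_cancel₀ _ (div_pos (hK x) (hq x)).ne').symm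
  have e1 : (K x / (K x / q x)) ^ lam * u x * (1 - u x / K x) =
      K x * q x ^ (lam - 2) * (u x / (K x / q x)) * (q x - u x / (K x / q x)) := by
    conv_lhs => rw [hu]
    exact alg (hK x) (hq x)
  have e2 : w'' = -(K x * q x ^ (lam - 2) * (u x / (K x / q x)) * (q x - u x / (K x / q x))) / d := by
    rw [← e1, eq_div_iff hd.ne']
    have he' : d * w'' + (K x / (K x / q x)) ^ lam * u x * (1 - u x / K x) = 0 := he
    linarith
  rw [← e2]
  exact hw

set_option maxHeartbeats 4000000 in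
theorem final (hU : Upper) (hBd : ExBd) (hNum : Num) (hReg : RegF) (hDer : DerF) (hQf : QfF)
    (hEx : Expl) (hG : Gain) (hM : Mass) (hT : Tau) (hPhi : PhiF) (hCh : Choice) :
    ∃ (a b : ℝ) (K P : ℝ → ℝ) (lam1 lam2 : ℝ), a < b ∧ ContDiff ℝ (⊤ : ℕ∞) K ∧
      ContDiff ℝ (⊤ : ℕ∞) P ∧ (∀ x, 0 < K x) ∧ (∀ x, 0 < P x) ∧
      (∃ x ∈ Icc a b, ∃ y ∈ Icc a b, K x / P x ≠ K y / P y) ∧
      0 < lam1 ∧ lam1 < lam2 ∧ lam2 ≤ 1 ∧ maxPop a b K P lam2 < maxPop a b K P lam1 := by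
  obtain ⟨b, hb⟩ := hBd
  obtain ⟨-, -, -, -, hβ0, hβ1⟩ := hNum
  obtain ⟨p, l2, hOK, hl, hl2, hQB, hQA, hl1m, hmβ, hτ1, hκ, hl2s, hfin⟩ := hCh b beta hb hβ0 hβ1
  have R := hReg p b hOK
  have D := hDer p b hOK R
  have F := hQf p b hOK R D
  obtain ⟨hphi, hphi1, hphi2c, e1, e2, e3, e4, hphib, hphiI⟩ := hPhi p b hOK R D F
  have hb1 : 1 ≤ b := hb.1
  have hm0 := hOK.m0
  have hη0 := hOK.eta0
  have hl10 := hOK.l10
  have hd10 : 0 < p.d1 := by
    rw [hOK.d10]; positivity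
  have hq : ∀ x, 0 < p.q x := fun x => by
    have h1 := F.q_lo x
    have h2 := R.one_le x
    linarith
  have hqs : ∀ x, HasDerivAt p.q (p.q1 x) x := fun x =>
    (F.q_s.differentiable (by simp)).differentiableAt.hasDerivAt
  have hq1c : Continuous p.q1 := F.q_s.continuous_deriv (by simp)
  have hL : p.z < p.L := by
    have := R.hzy; have := R.hy; have := R.hy2; have := R.hL; linarith
  have hz := R.hz
  have hDat : Dat (-3) p.L p.K p.q p.q1 :=
    ⟨by linarith, F.K_s.continuous, F.K_pos, hq, hqs, hq1c⟩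
  obtain ⟨hM1, hM2⟩ := hM p b l2 hOK R D F hl.le hl2
  obtain ⟨hT1, hT2, hT3⟩ := hT p b l2 hOK R D F (hl10.trans hl) hl2
  -- the constants
  set Q := 16 * p.QB ^ (-l2) with hQ
  have hQ0 : 0 ≤ Q := by
    have := hOK.QB0
    positivity
  set κ := 16 * p.QA ^ l2 * (1 + Real.log p.QA) / (p.ga * p.eta) with hκd
  set c0 : ℝ := (beta / (240 * b)) ^ 2 with hc0
  have hc01 : c0 ≤ 1 := by
    have : beta / (240 * b) ≤ 1 := by
      rw [div_le_one (by positivity)]; linarith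
    have h0 : 0 ≤ beta / (240 * b) := by positivity
    rw [hc0]
    nlinarith
  have hκ0 : 0 ≤ κ := by
    have h0 : 0 ≤ ∫ y in p.z..p.L, p.K y * p.q y ^ l2 :=
      intervalIntegral.integral_nonneg hL.le fun x _ =>
        mul_nonneg (F.K_pos x).le (Real.rpow_nonneg (hq x).le _)
    linarith
  have e10 : 0 ≤ p.e1 b := by
    have h := F.rat2 1 le_rfl
    have := abs_nonneg (p.d1 * p.w2 1 / p.th 1)
    linarith
  set H := 5 * p.eta + p.e1 b * p.m with hH
  have hH0 : 0 ≤ H := by positivity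
  have hc : (beta / 2 / (60 * b)) ^ 2 = 4 * c0 := by
    rw [hc0]; field_simp; ring
  have key := hU (-3) p.L p.K p.q p.q1 l2 phi phi1 phi2 2 p.z (2 * p.m) H b (beta / 2) κ
    (40 + κ) Q (1 + Q) (40 * l2) hDat (by norm_num) (by linarith) (hl10.trans hl) hl2
    (by norm_num) hz hL hH0 (by positivity) (by linarith [hOK.m1]) hb1 (by positivity)
    (by linarith) (fun x _ => ⟨F.q1_lo x, F.q1_hi x⟩)
    (fun x hx => (F.q1_h x hx.1).trans (by rw [hH]; linarith))
    (by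
      have h1 : p.z - 2 = 1 / p.eta := by rw [Par.z]; ring
      rw [h1, hH]
      have h2 : (5 * p.eta + p.e1 b * p.m) * (1 / p.eta) = 5 + p.e1 b * p.m / p.eta := by
        field_simp
      rw [h2]
      have h3 : 0 ≤ p.e1 b * p.m / p.eta := by positivity
      have h4 := F.z_val
      linarith)
    F.z_left F.z_right hM1 hM2 hT1 hT2 hT3 F.win hphi hphi1 hphi2c e1 e2 e3 e4 hphib
    (by linarith)
    (by
      rw [hc]
      have hl20 : 0 < l2 := hl10.trans hl
      have h1 : 1 / 4 * κ * (Q + (1 + Q)) ≤ 3 / 4 * c0 := by nlinarith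
      have h2 : 1 / 4 * (40 + κ) * (40 * l2) ≤ 1 / 4 * c0 := by nlinarith
      have h3 : 0 ≤ c0 := by rw [hc0]; positivity
      linarith)
  -- comparison of the two bounds
  have hX : (2 * p.m * Q + H * (1 + Q) + 3 * (40 * l2)) ≤ p.m * (beta / (40000 * b ^ 2)) := by
    have h1 : 2 * p.m * Q + H * (1 + Q) + 3 * (40 * l2) ≤
        p.m * (32 * p.QB ^ (-l2) + 10 * (p.eta / p.m) + 2 * p.e1 b + 120 * (l2 / p.m)) := by
      have h2 : p.m * (32 * p.QB ^ (-l2) + 10 * (p.eta / p.m) + 2 * p.e1 b + 120 * (l2 / p.m)) =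
          2 * p.m * Q + 10 * p.eta + 2 * (p.e1 b * p.m) + 120 * l2 := by
        rw [hQ]; field_simp; ring
      rw [h2]
      have h3 : H * (1 + Q) ≤ H * 2 := by
        apply mul_le_mul_of_nonneg_left _ hH0
        linarith
      rw [hH] at h3 ⊢
      linarith
    exact h1.trans (mul_le_mul_of_nonneg_left hfin hm0.le)
  have hX0 : 0 ≤ 2 * p.m * Q + H * (1 + Q) + 3 * (40 * l2) := by
    have : 0 ≤ l2 := (hl10.trans hl).le
    positivity
  have hgain := hG p b hOK R D F hQB hQA hl1m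
  have hlt : (2 * p.m * Q + H * (1 + Q) + 3 * (40 * l2)) ^ 2 / (4 * (beta / 2 / (60 * b)) ^ 2) <
      p.d1 * p.m / 32 := by
    rw [hc, div_lt_iff₀ (by rw [hc0]; positivity)]
    have h1 : (2 * p.m * Q + H * (1 + Q) + 3 * (40 * l2)) ^ 2 ≤
        (p.m * (beta / (40000 * b ^ 2))) ^ 2 := pow_le_pow_left₀ hX0 hX 2
    refine lt_of_le_of_lt h1 ?_
    rw [hOK.d10, hc0]
    have : p.m / (6400 * b ^ 2) * p.m / 32 * (4 * (4 * (beta / (240 * b)) ^ 2)) =
        (p.m * beta / b ^ 2) ^ 2 * (16 / (6400 * 32 * 240 ^ 2)) := by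
      field_simp
      ring
    rw [this]
    have h2 : (p.m * (beta / (40000 * b ^ 2))) ^ 2 =
        (p.m * beta / b ^ 2) ^ 2 * (1 / 40000 ^ 2) := by
      field_simp
    rw [h2]
    have h3 : 0 < (p.m * beta / b ^ 2) ^ 2 := by positivity
    nlinarith
  have hSol := hEx p b hOK R D F
  refine ⟨-3, p.L, p.K, fun x => p.K x / p.q x, p.l1, l2, by linarith, F.K_s,
    F.K_s.div F.q_s (fun x => (hq x).ne'), F.K_pos, fun x => div_pos (F.K_pos x) (hq x),
    ?_, hl10, hl, hl2, ?_⟩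
  · refine ⟨2, ⟨by norm_num, by linarith⟩, p.z, ⟨by linarith, hL.le⟩, ?_⟩
    have h1 : ∀ x, p.K x / (p.K x / p.q x) = p.q x := fun x => by
      have := (F.K_pos x).ne'
      have := (hq x).ne'
      field_simp
    simp only [h1]
    have hzy := R.hzy
    rw [F.q_d 2 ⟨by norm_num, by linarith⟩, F.q_d p.z ⟨by linarith, hzy.le⟩,
      R.w_d 2 ⟨by norm_num, by linarith⟩, R.w_d p.z ⟨by linarith, hzy.le⟩]
    intro h
    have : p.eta * (p.z - 2) = 0 := by linarith
    have h4 : p.eta * (p.z - 2) = 1 := by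
      rw [Par.z]; field_simp; ring
    linarith
  · refine lt_of_le_of_lt (b := (((∫ x in (-3 : ℝ)..p.L, p.K x) +
        (2 * p.m * Q + H * (1 + Q) + 3 * (40 * l2)) ^ 2 / (4 * (beta / 2 / (60 * b)) ^ 2) : ℝ) :
        EReal)) ?_ (lt_of_lt_of_le (b := ((∫ x in (-3 : ℝ)..p.L, p.K x / p.q x * p.w x : ℝ) :
        EReal)) ?_ ?_)
    · refine iSup_le fun d => iSup_le fun hd => iSup_le fun u => iSup_le fun hu => ?_
      obtain ⟨w1, hs⟩ := sol_of_isSolution F.K_pos hq hd hu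
      have := key d _ w1 hd hs
      have e : (∫ x in (-3 : ℝ)..p.L, p.K x / p.q x * (u x / (p.K x / p.q x))) =
          ∫ x in (-3 : ℝ)..p.L, u x := by
        congr 1
        funext x
        exact mul_div_cancel₀ _ (div_pos (F.K_pos x) (hq x)).ne'
      rw [e] at this
      exact EReal.coe_le_coe_iff.2 (by linarith)
    · exact EReal.coe_lt_coe_iff.2 (by linarith)
    · exact le_iSup_of_le p.d1 (le_iSup_of_le hd10 (le_iSup_of_le _ (le_iSup_of_le
        (isSolution_of_sol F.K_pos hq hd10 hSol) le_rfl)))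

end

end Pool.Agent.Q279.PM
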