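import Mathlib

/-!
# Project PM (row MP_bfb34b_an): the maximal total population is not monotone in lambda

One space dimension.  With `w = u / P` and `q = K / P` the equation reads
`d w'' = - K q^(lam-2) w (q - w)`, with `w' = 0` at both ends.
Definitions and the statements of the lemma jobs.
-/

namespace Pool.Agent.Q279.PM

open Set MeasureTheory intervalIntegral

noncomputable section

/-! ## Part U: bounds valid for all positive solutions -/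

/-- A positive solution, written for `w = u / P` (`w1` is the derivative of `w`). -/
structure Sol (s t : ℝ) (K q : ℝ → ℝ) (lam d : ℝ) (w w1 : ℝ → ℝ) : Prop where
  pos : ∀ x ∈ Icc s t, 0 < w x
  dw : ∀ x ∈ Icc s t, HasDerivWithinAt w (w1 x) (Icc s t) x
  dw1 : ∀ x ∈ Icc s t,
    HasDerivWithinAt w1 (-(K x * q x ^ (lam - 2) * w x * (q x - w x)) / d) (Icc s t) x
  left : w1 s = 0
  right : w1 t = 0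

/-- The coefficients: `K` continuous and positive, `q` positive with continuous derivative
`q1`. -/
structure Dat (s t : ℝ) (K q q1 : ℝ → ℝ) : Prop where
  lt : s < t
  K_cont : Continuous K
  K_pos : ∀ x, 0 < K x
  q_pos : ∀ x, 0 < q x
  dq : ∀ x, HasDerivAt q (q1 x) x
  q1_cont : Continuous q1

/-- Job SLOPE: global bounds of the slope of a solution. -/
def Slope : Prop :=
  ∀ (s t : ℝ) (K q q1 : ℝ → ℝ) (lam d : ℝ) (w w1 : ℝ → ℝ) (A C : ℝ),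
    Dat s t K q q1 → 0 < d → Sol s t K q lam d w w1 → 0 ≤ A → 0 ≤ C →
    (∀ x ∈ Icc s t, -A ≤ q1 x ∧ q1 x ≤ C) →
    ∀ x ∈ Icc s t, -A ≤ w1 x ∧ w1 x ≤ C

/-- Job ASC: an upper bound of the slope right of `z`. -/
def Ascent : Prop :=
  ∀ (s t : ℝ) (K q q1 : ℝ → ℝ) (lam d : ℝ) (w w1 : ℝ → ℝ) (z0 z H : ℝ),
    Dat s t K q q1 → 0 < d → Sol s t K q lam d w w1 → s ≤ z0 → z0 < z → z < t → 0 ≤ H →
    (∀ x ∈ Icc z0 t, q1 x ≤ H) → q z < H * (z - z0) →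
    ∀ x ∈ Icc z t, w1 x ≤ H

/-- Job FLUX: bounds of `d * |w'|` by the mass of `K q^lam`. -/
def Flux : Prop :=
  ∀ (s t : ℝ) (K q q1 : ℝ → ℝ) (lam d : ℝ) (w w1 : ℝ → ℝ) (z : ℝ),
    Dat s t K q q1 → 0 < d → Sol s t K q lam d w w1 → z ∈ Icc s t →
    (∀ x ∈ Icc s z, q x ≤ q z) → (∀ x ∈ Icc z t, q z ≤ q x) →
    (∀ x ∈ Icc z t, d * |w1 x| ≤ 1 / 4 * ∫ y in z..t, K y * q y ^ lam) ∧
    (∀ x ∈ Icc s t, d * |w1 x| ≤ 1 / 4 * ∫ y in s..t, K y * q y ^ lam)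

/-- Job IDENT: the identity for the total population. -/
def Ident : Prop :=
  ∀ (s t : ℝ) (K q q1 : ℝ → ℝ) (lam d : ℝ) (w w1 : ℝ → ℝ),
    Dat s t K q q1 → 0 < d → Sol s t K q lam d w w1 →
    (∫ x in s..t, K x / q x * w x) - ∫ x in s..t, K x =
      lam * d * (∫ x in s..t, w1 x * q1 x * q x ^ (-lam - 1)) -
        ∫ x in s..t, K x * (1 - w x / q x) ^ 2

/-- Job TEST: the lower bound of the penalty from one window. -/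
def Test : Prop :=
  ∀ (s t : ℝ) (K q q1 : ℝ → ℝ) (lam d : ℝ) (w w1 : ℝ → ℝ) (φ φ1 φ2 : ℝ → ℝ) (b B0 : ℝ),
    Dat s t K q q1 → 0 < d → Sol s t K q lam d w w1 → s ≤ -2 → 0 ≤ t →
    0 < lam → lam ≤ 1 → 1 ≤ b → 0 ≤ B0 → B0 ≤ 1 →
    (∀ x ∈ Icc (-2 : ℝ) 0, 1 / 4 ≤ K x ∧ K x ≤ 2 ∧ q x ≤ 9 / 4) →
    (∀ x, HasDerivAt φ (φ1 x) x) → (∀ x, HasDerivAt φ1 (φ2 x) x) → Continuous φ2 →
    φ (-2) = 0 → φ 0 = 0 → φ1 (-2) = 0 → φ1 0 = 0 →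
    (∀ x ∈ Icc (-2 : ℝ) 0, |φ x| ≤ 1 ∧ |φ2 x| ≤ 8 * b) →
    B0 ≤ |∫ x in (-2 : ℝ)..0, q x * φ2 x| →
    (min d 1 * (B0 / (60 * b))) ^ 2 ≤ ∫ x in s..t, K x * (1 - w x / q x) ^ 2

/-- Job UPPER: the upper bound of the total population for all dispersal rates. -/
def Upper : Prop :=
  ∀ (s t : ℝ) (K q q1 : ℝ → ℝ) (lam : ℝ) (φ φ1 φ2 : ℝ → ℝ)
    (z0 z A H b B0 κ0 CK τm τp τ2 : ℝ),
    Dat s t K q q1 → s ≤ -2 → 0 ≤ t → 0 < lam → lam ≤ 1 →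
    s ≤ z0 → z0 < z → z < t → 0 ≤ H → 0 ≤ A → A ≤ 3 → 1 ≤ b → 0 < B0 → B0 ≤ 1 →
    (∀ x ∈ Icc s t, -A ≤ q1 x ∧ q1 x ≤ 3) →
    (∀ x ∈ Icc z0 t, q1 x ≤ H) → q z < H * (z - z0) →
    (∀ x ∈ Icc s z, q x ≤ q z) → (∀ x ∈ Icc z t, q z ≤ q x) →
    (∫ y in z..t, K y * q y ^ lam) ≤ κ0 → (∫ y in s..t, K y * q y ^ lam) ≤ CK →
    lam * (∫ x in z..t, max (-q1 x) 0 * q x ^ (-lam - 1)) ≤ τm →
    lam * (∫ x in z..t, max (q1 x) 0 * q x ^ (-lam - 1)) ≤ τp →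
    lam * (∫ x in s..z, |q1 x| * q x ^ (-lam - 1)) ≤ τ2 →
    (∀ x ∈ Icc (-2 : ℝ) 0, 1 / 4 ≤ K x ∧ K x ≤ 2 ∧ q x ≤ 9 / 4) →
    (∀ x, HasDerivAt φ (φ1 x) x) → (∀ x, HasDerivAt φ1 (φ2 x) x) → Continuous φ2 →
    φ (-2) = 0 → φ 0 = 0 → φ1 (-2) = 0 → φ1 0 = 0 →
    (∀ x ∈ Icc (-2 : ℝ) 0, |φ x| ≤ 1 ∧ |φ2 x| ≤ 8 * b) →
    B0 ≤ |∫ x in (-2 : ℝ)..0, q x * φ2 x| →
    1 / 4 * κ0 * (τm + τp) + 1 / 4 * CK * τ2 ≤ (B0 / (60 * b)) ^ 2 →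
    ∀ (d : ℝ) (w w1 : ℝ → ℝ), 0 < d → Sol s t K q lam d w w1 →
      (∫ x in s..t, K x / q x * w x) - ∫ x in s..t, K x ≤
        (A * τm + H * τp + 3 * τ2) ^ 2 / (4 * (B0 / (60 * b)) ^ 2)

def JUpper : Prop := Slope → Ascent → Flux → Ident → Test → Upper

/-! ## Part C: the construction -/

/-- A smooth step from `0` to `1` on `[0,1]`. -/
def B : ℝ → ℝ := Real.smoothTransition

/-- A smooth bump on `[-1,0]`. -/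
def bump (x : ℝ) : ℝ := B (2 * x + 2) * B (-(2 * x))

/-- A common bound of the first three derivatives of the step. -/
def BdOK (b : ℝ) : Prop :=
  1 ≤ b ∧ ∀ x, |deriv B x| ≤ b ∧ |deriv (deriv B) x| ≤ b ∧ |deriv (deriv (deriv B)) x| ≤ b

/-- `∫ B` over `[0,1]`. -/
def b1 : ℝ := ∫ t in (0 : ℝ)..1, B t

/-- `∫ bump` over `[-1,0]`. -/
def Bt : ℝ := ∫ t in (-1 : ℝ)..0, bump t

/-- `∫ bump ^ 2` over `[-1,0]`. -/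
def beta : ℝ := ∫ t in (-1 : ℝ)..0, bump t ^ 2

/-- The parameters of the construction. -/
structure Par where
  m : ℝ
  eta : ℝ
  QA : ℝ
  QB : ℝ
  ga : ℝ
  d1 : ℝ
  l1 : ℝ

namespace Par
variable (p : Par)

/-- length of the peak region -/
def h : ℝ := p.QA / (2 * p.m)
/-- length of the ramp -/
def a : ℝ := p.QB / p.m
/-- start of the peak region -/
def y1 : ℝ := 1 + (p.QA - (1 + Bt + p.eta * b1)) / p.eta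
/-- start of the ramp -/
def y2 : ℝ :=
  p.y1 + p.h + (p.QA + p.eta * p.h - (p.m + p.eta) * p.h * b1 - 2 * p.QB) / p.m
/-- right end of the domain -/
def L : ℝ := p.y2 + p.a
/-- the point separating the two parts of the domain -/
def z : ℝ := 2 + 1 / p.eta

/-- The slope of the explicit solution: a bump on `[-1,0]`, then a gentle ascent with slope
`eta`, then a peak on `[y1, y1+h]`, then a descent with slope `-m`, then a ramp back to slope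
zero on `[y2,L]`. -/
def w1 (x : ℝ) : ℝ :=
  bump x + p.eta * B x - (p.m + p.eta) * B ((x - p.y1) / p.h) + p.m * B ((x - p.y2) / p.a)

/-- The explicit solution. -/
def w (x : ℝ) : ℝ := 1 + ∫ t in (-3 : ℝ)..x, p.w1 t

def w2 : ℝ → ℝ := deriv p.w1
def w3 : ℝ → ℝ := deriv p.w2

/-- The weight: `1` for `x ≤ 1` and `1 / (ga * w)` for `x ≥ 2`. -/
def th (x : ℝ) : ℝ := (1 - B (x - 1)) + B (x - 1) / (p.ga * p.w x)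

/-- The ratio `q = K / P`. -/
def q (x : ℝ) : ℝ := p.w x * (1 - p.d1 * p.w2 x / p.th x)

def q1 : ℝ → ℝ := deriv p.q

/-- The carrying capacity. -/
def K (x : ℝ) : ℝ := p.q x ^ (2 - p.l1) * p.th x / (p.w x) ^ 2

/-- A small number. -/
def e1 (b : ℝ) : ℝ := 64 * b * p.d1 * p.ga * p.m ^ 2

/-- The conditions on the parameters. -/
structure OK (b : ℝ) : Prop where
  hb : BdOK b
  m0 : 0 < p.m
  m1 : p.m ≤ 1 / 4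
  eta0 : 0 < p.eta
  eta1 : p.eta ≤ p.m / 4
  QB0 : 16 ≤ p.QB
  QA0 : 8 * p.QB ≤ p.QA
  ga0 : 1 ≤ p.ga * p.eta
  d10 : p.d1 = p.m / (6400 * b ^ 2)
  l10 : 0 < p.l1
  l11 : p.l1 ≤ 1
  e10 : 64 * b * p.e1 b ≤ 1

/-- Facts on the explicit solution `w`. -/
structure Reg : Prop where
  hz : 2 < p.z
  hzy : p.z < p.y1
  hy : p.y1 < p.y1 + p.h
  hy2 : p.y1 + p.h < p.y2
  hL : p.y2 < p.L
  smooth : ContDiff ℝ (⊤ : ℕ∞) p.w1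
  dw : ∀ x, HasDerivAt p.w (p.w1 x) x
  dw1 : ∀ x, HasDerivAt p.w1 (p.w2 x) x
  dw2 : ∀ x, HasDerivAt p.w2 (p.w3 x) x
  one_le : ∀ x, 1 ≤ p.w x
  w1_a : ∀ x ≤ -1, p.w1 x = 0
  w1_b : ∀ x ≤ 0, p.w1 x = bump x
  w1_c : ∀ x ∈ Icc (0 : ℝ) 1, p.w1 x = p.eta * B x
  w1_d : ∀ x ∈ Icc (1 : ℝ) p.y1, p.w1 x = p.eta
  w1_e : ∀ x ∈ Icc p.y1 (p.y1 + p.h),
    p.w1 x = p.eta - (p.m + p.eta) * B ((x - p.y1) / p.h)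
  w1_f : ∀ x ∈ Icc (p.y1 + p.h) p.y2, p.w1 x = -p.m
  w1_g : ∀ x ∈ Icc p.y2 p.L, p.w1 x = -p.m + p.m * B ((x - p.y2) / p.a)
  w1_h : ∀ x, p.L ≤ x → p.w1 x = 0
  w_a : ∀ x ≤ -1, p.w x = 1
  w_0 : ∀ x ≤ 0, p.w x ≤ 2
  w_b : ∀ x ≤ 1, p.w x ≤ 3
  w_d : ∀ x ∈ Icc (1 : ℝ) p.y1, p.w x = 1 + Bt + p.eta * b1 + p.eta * (x - 1)
  w_y1 : p.w p.y1 = p.QA
  w_e : ∀ x ∈ Icc p.y1 (p.y1 + p.h), p.QA / 2 ≤ p.w x ∧ p.w x ≤ 2 * p.QA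
  w_f : ∀ x ∈ Icc (p.y1 + p.h) p.y2, p.w x = 2 * p.QB + p.m * (p.y2 - x)
  w_g : ∀ x, p.y2 ≤ x → p.QB ≤ p.w x ∧ p.w x ≤ 2 * p.QB
  w_le : ∀ x, p.w x ≤ 2 * p.QA

/-- Bounds of the second and third derivative of `w`. -/
structure Der (b : ℝ) : Prop where
  w2_a : ∀ x ≤ 1, |p.w2 x| ≤ 5 * b
  w3_a : ∀ x ≤ 1, |p.w3 x| ≤ 17 * b ^ 2
  w2_d : ∀ x ∈ Icc (1 : ℝ) p.y1, p.w2 x = 0
  w3_d : ∀ x ∈ Icc (1 : ℝ) p.y1, p.w3 x = 0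
  w2_e : ∀ x ∈ Icc p.y1 (p.y1 + p.h), |p.w2 x| ≤ (p.m + p.eta) * b / p.h
  w2_f : ∀ x ∈ Icc (p.y1 + p.h) p.y2, p.w2 x = 0
  w2_g : ∀ x ∈ Icc p.y2 p.L, |p.w2 x| ≤ p.m * b / p.a
  ww2 : ∀ x, 1 ≤ x → p.w x * |p.w2 x| ≤ 8 * b * p.m ^ 2
  ww3 : ∀ x, 1 ≤ x → p.w x ^ 2 * |p.w3 x| ≤ 32 * b * p.m ^ 3

/-- Facts on `th`, `q`, `K`. -/
structure Qf (b : ℝ) : Prop where
  th_pos : ∀ x, 0 < p.th x
  th_le : ∀ x, p.th x ≤ 1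
  th_a : ∀ x ≤ 1, p.th x = 1
  th_b : ∀ x, 2 ≤ x → p.th x = 1 / (p.ga * p.w x)
  rat : ∀ x, |p.d1 * p.w2 x / p.th x| ≤ p.e1 b / 8 + 1 / 1000
  rat2 : ∀ x, 1 ≤ x → |p.d1 * p.w2 x / p.th x| ≤ p.e1 b / 8
  q_lo : ∀ x, 7 / 8 * p.w x ≤ p.q x
  q_hi : ∀ x, p.q x ≤ 9 / 8 * p.w x
  q_d : ∀ x ∈ Icc (1 : ℝ) p.y1, p.q x = p.w x
  q_f : ∀ x ∈ Icc (p.y1 + p.h) p.y2, p.q x = p.w x
  q_s : ContDiff ℝ (⊤ : ℕ∞) p.q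
  K_s : ContDiff ℝ (⊤ : ℕ∞) p.K
  K_pos : ∀ x, 0 < p.K x
  q1_lo : ∀ x, -(2 * p.m) ≤ p.q1 x
  q1_hi : ∀ x, p.q1 x ≤ 3
  q1_h : ∀ x, 2 ≤ x → p.q1 x ≤ p.eta + p.e1 b * p.m
  q1_d : ∀ x ∈ Icc (2 : ℝ) p.y1, p.q1 x = p.eta
  q1_f : ∀ x ∈ Icc (p.y1 + p.h) p.y2, p.q1 x = -p.m
  q1_a : ∀ x, 2 ≤ x → |p.q1 x| ≤ 2 * p.m
  z_left : ∀ x ∈ Icc (-3 : ℝ) p.z, p.q x ≤ p.q p.z
  z_right : ∀ x ∈ Icc p.z p.L, p.q p.z ≤ p.q x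
  z_val : p.q p.z ≤ 9 / 2
  win : ∀ x ∈ Icc (-2 : ℝ) 0, 1 / 4 ≤ p.K x ∧ p.K x ≤ 2 ∧ p.q x ≤ 9 / 4

end Par

/-- Job BD: the derivatives of the step are bounded. -/
def ExBd : Prop := ∃ b, BdOK b

/-- Job NUM: elementary facts on the constants. -/
def Num : Prop := 0 ≤ b1 ∧ b1 ≤ 1 ∧ 0 < Bt ∧ Bt ≤ 1 ∧ 0 < beta ∧ beta ≤ 1

/-- Job REG. -/
def RegF : Prop := ∀ (p : Par) (b : ℝ), p.OK b → p.Reg

/-- Job DER. -/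
def DerF : Prop := ∀ (p : Par) (b : ℝ), p.OK b → p.Reg → p.Der b

/-- Job QF. -/
def QfF : Prop := ∀ (p : Par) (b : ℝ), p.OK b → p.Reg → p.Der b → p.Qf b

/-- Job EXPL: the explicit function is a solution for `d1` and `l1`. -/
def Expl : Prop := ∀ (p : Par) (b : ℝ), p.OK b → p.Reg → p.Der b → p.Qf b →
  Sol (-3) p.L p.K p.q p.l1 p.d1 p.w p.w1

/-- Job GAIN: the total population of the explicit solution. -/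
def Gain : Prop := ∀ (p : Par) (b : ℝ), p.OK b → p.Reg → p.Der b → p.Qf b →
  p.QB ^ (-p.l1) = 1 / 2 → p.QA ^ (-p.l1) = 1 / 4 → 1600 * b * p.l1 ≤ p.m →
  p.d1 * p.m / 32 ≤ (∫ x in (-3 : ℝ)..p.L, p.K x / p.q x * p.w x) - ∫ x in (-3 : ℝ)..p.L, p.K x

/-- Job MASS: the mass of `K q^l2`. -/
def Mass : Prop := ∀ (p : Par) (b l2 : ℝ), p.OK b → p.Reg → p.Der b → p.Qf b →
  p.l1 ≤ l2 → l2 ≤ 1 →
  (∫ y in p.z..p.L, p.K y * p.q y ^ l2) ≤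
      16 * p.QA ^ l2 * (1 + Real.log p.QA) / (p.ga * p.eta) ∧
  (∫ y in (-3 : ℝ)..p.L, p.K y * p.q y ^ l2) ≤
      40 + 16 * p.QA ^ l2 * (1 + Real.log p.QA) / (p.ga * p.eta)

/-- Job TAU: the three variation integrals. -/
def Tau : Prop := ∀ (p : Par) (b l2 : ℝ), p.OK b → p.Reg → p.Der b → p.Qf b →
  0 < l2 → l2 ≤ 1 →
  l2 * (∫ x in p.z..p.L, max (-p.q1 x) 0 * p.q x ^ (-l2 - 1)) ≤ 16 * p.QB ^ (-l2) ∧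
  l2 * (∫ x in p.z..p.L, max (p.q1 x) 0 * p.q x ^ (-l2 - 1)) ≤ 1 + 16 * p.QB ^ (-l2) ∧
  l2 * (∫ x in (-3 : ℝ)..p.z, |p.q1 x| * p.q x ^ (-l2 - 1)) ≤ 40 * l2

/-- The test function. -/
def phi (x : ℝ) : ℝ := ∫ t in (-3 : ℝ)..x, (bump (t + 1) - bump t)
def phi1 (x : ℝ) : ℝ := bump (x + 1) - bump x
def phi2 : ℝ → ℝ := deriv phi1

/-- Job PHI: the test function in the window. -/
def PhiF : Prop := ∀ (p : Par) (b : ℝ), p.OK b → p.Reg → p.Der b → p.Qf b →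
  (∀ x, HasDerivAt phi (phi1 x) x) ∧ (∀ x, HasDerivAt phi1 (phi2 x) x) ∧ Continuous phi2 ∧
  phi (-2) = 0 ∧ phi 0 = 0 ∧ phi1 (-2) = 0 ∧ phi1 0 = 0 ∧
  (∀ x ∈ Icc (-2 : ℝ) 0, |phi x| ≤ 1 ∧ |phi2 x| ≤ 8 * b) ∧
  beta - p.m / 40 ≤ |∫ x in (-2 : ℝ)..0, p.q x * phi2 x|

/-- Job CHOICE: the choice of the parameters. -/
def Choice : Prop := ∀ (b β : ℝ), BdOK b → 0 < β → β ≤ 1 →
  ∃ (p : Par) (l2 : ℝ), p.OK b ∧ p.l1 < l2 ∧ l2 ≤ 1 ∧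
    p.QB ^ (-p.l1) = 1 / 2 ∧ p.QA ^ (-p.l1) = 1 / 4 ∧ 1600 * b * p.l1 ≤ p.m ∧
    p.m ≤ β ∧ 16 * p.QB ^ (-l2) ≤ 1 ∧
    16 * p.QA ^ l2 * (1 + Real.log p.QA) / (p.ga * p.eta) ≤ (β / (240 * b)) ^ 2 ∧
    1640 * l2 ≤ (β / (240 * b)) ^ 2 ∧
    32 * p.QB ^ (-l2) + 10 * (p.eta / p.m) + 2 * p.e1 b + 120 * (l2 / p.m) ≤
      β / (40000 * b ^ 2)

end

end Pool.Agent.Q279.PM
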